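import Pool.Agent.Helper79.CP.Geo
import Pool.Agent.Helper49.CP.Mem
import Pool.Agent.Helper49.CP.Conic

/-!
# Cones over the members of a pencil of sextics in the weighted plane
-/

set_option autoImplicit false

namespace Pool.Agent.Helper79.CP

open Pool.Agent.Helper29.CQ Pool.Agent.Helper65.CC Pool.Agent.Helper87.CC
  Pool.Agent.Helper65.CC.KFn
open Pool.Agent.Helper71.CP
open Pool.Agent.Helper9.QP (A4 Cst)
open MvPolynomial (X C aeval IsWeightedHomogeneous)

variable {K : Type} [Field K] {G : ∀ (R : Type) [CommRing R] [Algebra K R], Prop}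

/-- **(5)** the cones over the members of the pencil -/
theorem geo6 [IsAlgClosed K] (h2 : (2 : K) ≠ 0) (hG : GOps K G) {k : Type} [Field k] [Finite k]
    [Algebra k K] (hW : Cst k G) (F E : MvPolynomial (Fin 3) k)
    (hF : IsWeightedHomogeneous wt F 6) (hE : IsWeightedHomogeneous wt E 3) (hE0 : E ≠ 0)
    (hx : ∀ (k' : Type) [Field k'] [Algebra k k'], Module.Finite k k' → ∀ τ : Chg k',
      ¬ (NoX (aeval τ.fwd (MvPolynomial.map (algebraMap k k') F)) ∧
        NoX (aeval τ.fwd (MvPolynomial.map (algebraMap k k') E))))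
    (hy : ¬ (NoY F ∧ NoY E)) (a b : K) (hb : b ≠ 0) :
    (CW (Qp (MvPolynomial.map (algebraMap k K) F) (MvPolynomial.map (algebraMap k K) E) a b)).Mem G :=
  geo6_of hG (fun F' hF' h => Pool.Agent.Helper49.CP.cone6_mem h2 hG F' hF' h) F E hF hE hx hy a b
    hb (Pool.Agent.Helper49.CP.conic6 hG hW F E hF hE hE0 a b hb)

end Pool.Agent.Helper79.CP
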