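import Pool.Agent.Helper71.CP.Defs

/-!
# Common normal forms of a sextic and a cubic form are defined over a finite extension
-/

set_option autoImplicit false

namespace Pool.Agent.Helper79.CP

open Pool.Agent.Helper71.CP
open MvPolynomial (X aeval IsWeightedHomogeneous)

theorem map_subst (A B : Type) [CommRing A] [CommRing B] (φ : A →+* B)
    (t : Fin 3 → MvPolynomial (Fin 3) A) (P : MvPolynomial (Fin 3) A) :
    MvPolynomial.map φ (aeval t P) =
      aeval (fun i => MvPolynomial.map φ (t i)) (MvPolynomial.map φ P) :=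
  MvPolynomial.map_bind₁ φ t P

theorem map_v (A B : Type) [CommRing A] [CommRing B] (φ : A →+* B) :
    (fun i => MvPolynomial.map φ ((![0, X 1, X 2] : Fin 3 → MvPolynomial (Fin 3) A) i)) =
      (![0, X 1, X 2] : Fin 3 → MvPolynomial (Fin 3) B) := by
  funext i
  fin_cases i
  · exact map_zero _
  · exact MvPolynomial.map_X _ _
  · exact MvPolynomial.map_X _ _

/-- **(4)** common normal forms are defined over a finite extension -/
theorem desc6 {k K : Type} [Field k] [Field K] [Algebra k K] (F E : MvPolynomial (Fin 3) k)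
    (τ : Chg K) (h : NoX (aeval τ.fwd (MvPolynomial.map (algebraMap k K) F)))
    (h' : NoX (aeval τ.fwd (MvPolynomial.map (algebraMap k K) E))) :
    ∃ (k' : Type) (_ : Field k') (_ : Algebra k k') (_ : Module.Finite k k') (τ' : Chg k'),
      NoX (aeval τ'.fwd (MvPolynomial.map (algebraMap k k') F)) ∧
      NoX (aeval τ'.fwd (MvPolynomial.map (algebraMap k k') E)) := by
  classical
  let s : Finset K := Finset.univ.biUnion fun i => (τ.fwd i).coeffs ∪ (τ.bwd i).coeffs
  let B : Subalgebra k K := Algebra.adjoin k (s : Set K)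
  have hB : Algebra.FiniteType k B := (Subalgebra.fg_iff_finiteType B).1 ⟨s, rfl⟩
  let ι : B →+* K := algebraMap B K
  have hι : Function.Injective ι := Subtype.val_injective
  have hm := MvPolynomial.map_injective (σ := Fin 3) ι hι
  have hr : ∀ P : MvPolynomial (Fin 3) K, P.coeffs ⊆ s → ∃ Q, MvPolynomial.map ι Q = P := by
    intro P hP
    refine MvPolynomial.mem_range_map_iff_coeffs_subset.2 ?_
    intro c hc
    exact ⟨⟨c, Algebra.subset_adjoin (hP hc)⟩, rfl⟩
  have hf : ∀ i, ∃ Q, MvPolynomial.map ι Q = τ.fwd i := fun i => hr _ fun c hc =>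
    Finset.mem_biUnion.2 ⟨i, Finset.mem_univ i, Finset.mem_union_left _ hc⟩
  have hb : ∀ i, ∃ Q, MvPolynomial.map ι Q = τ.bwd i := fun i => hr _ fun c hc =>
    Finset.mem_biUnion.2 ⟨i, Finset.mem_univ i, Finset.mem_union_right _ hc⟩
  choose f hf using hf
  choose b hb using hb
  obtain ⟨m, hmax⟩ := Ideal.exists_maximal B
  let φ : B →+* B ⧸ m := Ideal.Quotient.mk m
  let _ : Field (B ⧸ m) := Ideal.Quotient.field m
  have hfin : Module.Finite k (B ⧸ m) := finite_of_finite_type_of_isJacobsonRing k (B ⧸ m)
  have hhom : ∀ (P : MvPolynomial (Fin 3) B) (n : ℕ),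
      IsWeightedHomogeneous wt (MvPolynomial.map ι P) n →
      IsWeightedHomogeneous wt (MvPolynomial.map φ P) n := by
    intro P n hP d hd
    apply hP
    intro h0
    apply hd
    rw [MvPolynomial.coeff_map] at h0 ⊢
    rw [hι (h0.trans (map_zero ι).symm), map_zero]
  have hfb : ∀ i, aeval f (b i) = X i := fun i => by
    apply hm
    rw [map_subst, hb, MvPolynomial.map_X]
    simp only [hf]
    exact τ.fwd_bwd i
  have hbf : ∀ i, aeval b (f i) = X i := fun i => by
    apply hm
    rw [map_subst, hf, MvPolynomial.map_X]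
    simp only [hb]
    exact τ.bwd_fwd i
  let τ' : Chg (B ⧸ m) :=
    { fwd := fun i => MvPolynomial.map φ (f i)
      bwd := fun i => MvPolynomial.map φ (b i)
      hfwd := fun i => hhom _ _ (by rw [hf]; exact τ.hfwd i)
      hbwd := fun i => hhom _ _ (by rw [hb]; exact τ.hbwd i)
      fwd_bwd := fun i => by
        rw [← map_subst, hfb, MvPolynomial.map_X]
      bwd_fwd := fun i => by
        rw [← map_subst, hbf, MvPolynomial.map_X] }
  have key : ∀ P : MvPolynomial (Fin 3) k,
      NoX (aeval τ.fwd (MvPolynomial.map (algebraMap k K) P)) →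
      NoX (aeval τ'.fwd (MvPolynomial.map (algebraMap k (B ⧸ m)) P)) := by
    intro P hP
    have e1 : MvPolynomial.map (algebraMap k K) P =
        MvPolynomial.map ι (MvPolynomial.map (algebraMap k B) P) := by
      rw [MvPolynomial.map_map]
      rfl
    have e2 : MvPolynomial.map (algebraMap k (B ⧸ m)) P =
        MvPolynomial.map φ (MvPolynomial.map (algebraMap k B) P) := by
      rw [MvPolynomial.map_map]
      rfl
    have e3 : aeval τ.fwd (MvPolynomial.map (algebraMap k K) P) =
        MvPolynomial.map ι (aeval f (MvPolynomial.map (algebraMap k B) P)) := by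
      rw [map_subst, e1]
      simp only [hf]
    have e4 : aeval τ'.fwd (MvPolynomial.map (algebraMap k (B ⧸ m)) P) =
        MvPolynomial.map φ (aeval f (MvPolynomial.map (algebraMap k B) P)) := by
      rw [map_subst, e2]
    unfold NoX at hP ⊢
    rw [e3, ← map_v B K ι, ← map_subst] at hP
    rw [e4, ← map_v B (B ⧸ m) φ, ← map_subst, hm hP]
  exact ⟨B ⧸ m, inferInstance, inferInstance, hfin, τ', key F h, key E h'⟩

end Pool.Agent.Helper79.CP
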