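import Pool.Agent.Helper79.CP.Tr
import Pool.Agent.Helper79.CP.Desc

/-!
# Cones over the members of a pencil of sextics in the weighted plane: assembly
-/

set_option autoImplicit false

namespace Pool.Agent.Helper79.CP

open Pool.Agent.Helper29.CQ Pool.Agent.Helper65.CC Pool.Agent.Helper87.CC
  Pool.Agent.Helper65.CC.KFn
open Pool.Agent.Helper71.CP
open MvPolynomial (X C aeval IsWeightedHomogeneous)

variable {K : Type} [Field K] {G : ∀ (R : Type) [CommRing R] [Algebra K R], Prop}

/-- base change of forms -/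
theorem hom_map {k K : Type} [Field k] [Field K] [Algebra k K] {F : MvPolynomial (Fin 3) k}
    {n : ℕ} (hF : IsWeightedHomogeneous wt F n) :
    IsWeightedHomogeneous wt (MvPolynomial.map (algebraMap k K) F) n := by
  intro d hd
  apply hF
  intro h0
  apply hd
  rw [MvPolynomial.coeff_map, h0, map_zero]

/-- substitution of forms -/
theorem hom_sub (t : Fin 3 → MvPolynomial (Fin 3) K)
    (ht : ∀ i, IsWeightedHomogeneous wt (t i) (wt i)) {F : MvPolynomial (Fin 3) K} {n : ℕ}
    (hF : IsWeightedHomogeneous wt F n) : IsWeightedHomogeneous wt (aeval t F) n := by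
  refine IsWeightedHomogeneous.induction_on
    (motive := fun p _ => IsWeightedHomogeneous wt (aeval t p) n) ?_ ?_ ?_ hF
  · rw [map_zero]
    exact MvPolynomial.isWeightedHomogeneous_zero K wt n
  · intro p q _ _ hp hq
    rw [map_add]
    exact hp.add hq
  · intro d r hd
    rw [weight_eq] at hd
    rw [MvPolynomial.aeval_monomial, Finsupp.prod_fintype _ _ (fun i => pow_zero _),
      Fin.prod_univ_three, MvPolynomial.algebraMap_eq]
    refine IsWeightedHomogeneous.C_mul ?_ r
    have h1 := (((ht 0).pow (d 0)).mul ((ht 1).pow (d 1))).mul ((ht 2).pow (d 2))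
    have h2 : d 0 • wt 0 + d 1 • wt 1 + d 2 • wt 2 = n := by
      change d 0 * 1 + d 1 * 2 + d 2 * 1 = n
      omega
    rw [h2] at h1
    exact h1

theorem noX_solve {F E : MvPolynomial (Fin 3) K} {a b : K} (hb : b ≠ 0)
    (t : Fin 3 → MvPolynomial (Fin 3) K) (h : NoX (aeval t (Qp F E a b)))
    (h' : NoX (aeval t E)) : NoX (aeval t F) := by
  have h1 : aeval t F = C b⁻¹ * (aeval t (Qp F E a b) - C a * aeval t E ^ 2) := by
    rw [Qp, map_add, map_mul, map_mul, map_pow, MvPolynomial.algHom_C, MvPolynomial.algHom_C,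
      MvPolynomial.algebraMap_eq, add_sub_cancel_left, ← mul_assoc, ← MvPolynomial.C_mul,
      inv_mul_cancel₀ hb, MvPolynomial.C_1, one_mul]
  unfold NoX at h h' ⊢
  rw [h1, map_mul, map_sub, map_mul, map_pow, h, h', MvPolynomial.algHom_C,
    MvPolynomial.algHom_C, MvPolynomial.algebraMap_eq]

theorem noY_solve {F E : MvPolynomial (Fin 3) K} {a b : K} (hb : b ≠ 0)
    (h : NoY (Qp F E a b)) (h' : NoY E) : NoY F := by
  have h1 : F = C b⁻¹ * (Qp F E a b - C a * E ^ 2) := by
    rw [Qp, add_sub_cancel_left, ← mul_assoc, ← MvPolynomial.C_mul,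
      inv_mul_cancel₀ hb, MvPolynomial.C_1, one_mul]
  unfold NoY at h h' ⊢
  rw [h1, map_mul, map_sub, map_mul, map_pow, h, h', MvPolynomial.algHom_C,
    MvPolynomial.algHom_C, MvPolynomial.algebraMap_eq]

theorem noY_of_map {k : Type} [Field k] [Algebra k K] {F : MvPolynomial (Fin 3) k}
    (h : NoY (MvPolynomial.map (algebraMap k K) F)) : NoY F := by
  have h1 : (fun i => MvPolynomial.map (algebraMap k K)
      ((![X 0, 0, X 2] : Fin 3 → MvPolynomial (Fin 3) k) i)) =
      (![X 0, 0, X 2] : Fin 3 → MvPolynomial (Fin 3) K) := by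
    funext i
    fin_cases i
    · exact MvPolynomial.map_X _ _
    · exact map_zero _
    · exact MvPolynomial.map_X _ _
  unfold NoY at h ⊢
  rw [← h1, ← map_subst] at h
  exact MvPolynomial.map_injective _ (algebraMap k K).injective h

/-- **(5)** the assembly -/
theorem geo6_of [IsAlgClosed K] (hG : GOps K G)
    (H1 : ∀ F : MvPolynomial (Fin 3) K, IsWeightedHomogeneous wt F 6 →
      (al F ≠ 0 ∧ ∀ τ : Chg K, ¬ NoX (aeval τ.fwd F)) ∨ (al F = 0 ∧ ¬ NoY F) → (CW F).Mem G)
    {k : Type} [Field k] [Algebra k K] (F E : MvPolynomial (Fin 3) k)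
    (hF : IsWeightedHomogeneous wt F 6) (hE : IsWeightedHomogeneous wt E 3)
    (hx : ∀ (k' : Type) [Field k'] [Algebra k k'], Module.Finite k k' → ∀ τ : Chg k',
      ¬ (NoX (aeval τ.fwd (MvPolynomial.map (algebraMap k k') F)) ∧
        NoX (aeval τ.fwd (MvPolynomial.map (algebraMap k k') E))))
    (hy : ¬ (NoY F ∧ NoY E)) (a b : K) (hb : b ≠ 0)
    (H3 : ((CW (Qp (MvPolynomial.map (algebraMap k K) F) (MvPolynomial.map (algebraMap k K) E)
      a b)).cls (CW.c _ (MvPolynomial.map (algebraMap k K) E))).Mem G) :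
    (CW (Qp (MvPolynomial.map (algebraMap k K) F) (MvPolynomial.map (algebraMap k K) E) a b)).Mem G := by
  set F' := MvPolynomial.map (algebraMap k K) F with hF'
  set E' := MvPolynomial.map (algebraMap k K) E with hE'
  have hFK : IsWeightedHomogeneous wt F' 6 := hom_map hF
  have hEK : IsWeightedHomogeneous wt E' 3 := hom_map hE
  have hQ := Qp_hom hFK hEK a b
  by_cases h0 : al (Qp F' E' a b) = 0
  · by_cases h1 : NoY (Qp F' E' a b)
    · by_cases h2 : NoY E'
      · exact absurd ⟨noY_of_map (noY_solve hb h1 h2), noY_of_map h2⟩ hy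
      · exact cone6_try hG _ E' hQ hEK h1 h2 H3
    · exact H1 _ hQ (Or.inr ⟨h0, h1⟩)
  · by_cases h1 : ∃ τ : Chg K, NoX (aeval τ.fwd (Qp F' E' a b))
    · obtain ⟨τ, h1⟩ := h1
      by_cases h2 : NoX (aeval τ.fwd E')
      · obtain ⟨k', _, _, hk, τ', h3, h4⟩ := desc6 F E τ (noX_solve hb τ.fwd h1 h2) h2
        exact absurd ⟨h3, h4⟩ (hx k' hk τ')
      · refine Mem.of_iso (CWi (Qp F' E' a b) τ) (cone6_trx hG _ (aeval τ.fwd E')
          (hom_sub _ τ.hfwd hQ) (hom_sub _ τ.hfwd hEK) h1 h2 ?_)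
        exact Mem.of_iso (Pool.Agent.Helper71.QP.clsIso (CWi (Qp F' E' a b) τ) _ _
          (fun x => CWi_c _ _ τ x)).symm H3
    · exact H1 _ hQ (Or.inl ⟨h0, fun τ h => h1 ⟨τ, h⟩⟩)

end Pool.Agent.Helper79.CP
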