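import Pool.Agent.Helper71.CP.Defs
import Pool.Agent.Helper71.QP.Trans

/-!
# Weighted forms of degree three and six; transfer for monic equations
-/

set_option autoImplicit false

namespace Pool.Agent.Helper79.CP

open Pool.Agent.Helper29.CQ Pool.Agent.Helper65.CC Pool.Agent.Helper87.CC
  Pool.Agent.Helper65.CC.KFn
open Pool.Agent.Helper71.CP
open Polynomial
open MvPolynomial (IsWeightedHomogeneous)

variable {K : Type} [Field K] {G : ∀ (R : Type) [CommRing R] [Algebra K R], Prop}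

/-! ### Explicit forms -/

theorem ev_monomial (d : Fin 3 →₀ ℕ) (r : K) {R : Type} [CommRing R] [Algebra K R] (x y z : R) :
    ev (MvPolynomial.monomial d r) x y z =
      algebraMap K R r * (x ^ d 0 * y ^ d 1 * z ^ d 2) := by
  unfold ev
  rw [MvPolynomial.aeval_monomial, Finsupp.prod_fintype _ _ (fun i => pow_zero _),
    Fin.prod_univ_three]
  rfl

theorem ev_zero {R : Type} [CommRing R] [Algebra K R] (x y z : R) :
    ev (0 : MvPolynomial (Fin 3) K) x y z = 0 := map_zero _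

theorem weight_eq (d : Fin 3 →₀ ℕ) : Finsupp.weight wt d = d 0 + 2 * d 1 + d 2 := by
  rw [Finsupp.weight_apply, Finsupp.sum_fintype _ _ (fun i => by simp), Fin.sum_univ_three]
  simp only [Matrix.cons_val_zero, Matrix.cons_val_one, Matrix.cons_val, smul_eq_mul, mul_one]
  ring

/-- forms of degree three -/
def f3 (e : Fin 6 → K) {R : Type} [CommRing R] [Algebra K R] (x y z : R) : R :=
  algebraMap K R (e 0) * x ^ 3 + algebraMap K R (e 1) * (x ^ 2 * z) +
    algebraMap K R (e 2) * (x * z ^ 2) + algebraMap K R (e 3) * z ^ 3 +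
    algebraMap K R (e 4) * (x * y) + algebraMap K R (e 5) * (y * z)

theorem exists_f3 {E : MvPolynomial (Fin 3) K} (hE : IsWeightedHomogeneous wt E 3) :
    ∃ e : Fin 6 → K, ∀ {R : Type} [CommRing R] [Algebra K R] (x y z : R),
      ev E x y z = f3 e x y z := by
  refine IsWeightedHomogeneous.induction_on (motive := fun p _ => ∃ e : Fin 6 → K,
    ∀ {R : Type} [CommRing R] [Algebra K R] (x y z : R), ev p x y z = f3 e x y z) ?_ ?_ ?_ hE
  · refine ⟨0, fun {R} _ _ x y z => ?_⟩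
    rw [ev_zero]
    simp [f3]
  · rintro p q - - ⟨e, he⟩ ⟨e', he'⟩
    refine ⟨e + e', fun {R} _ _ x y z => ?_⟩
    rw [ev_add, he, he']
    simp only [f3, Pi.add_apply, map_add]
    ring
  · intro d r hd
    rw [weight_eq] at hd
    have h : (d 0 = 3 ∧ d 1 = 0 ∧ d 2 = 0) ∨ (d 0 = 2 ∧ d 1 = 0 ∧ d 2 = 1) ∨
        (d 0 = 1 ∧ d 1 = 0 ∧ d 2 = 2) ∨ (d 0 = 0 ∧ d 1 = 0 ∧ d 2 = 3) ∨
        (d 0 = 1 ∧ d 1 = 1 ∧ d 2 = 0) ∨ (d 0 = 0 ∧ d 1 = 1 ∧ d 2 = 1) := by
      omega
    rcases h with ⟨h0, h1, h2⟩ | ⟨h0, h1, h2⟩ | ⟨h0, h1, h2⟩ | ⟨h0, h1, h2⟩ | ⟨h0, h1, h2⟩ |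
      ⟨h0, h1, h2⟩
    · refine ⟨![r, 0, 0, 0, 0, 0], fun {R} _ _ x y z => ?_⟩
      rw [ev_monomial, h0, h1, h2]
      simp [f3]
    · refine ⟨![0, r, 0, 0, 0, 0], fun {R} _ _ x y z => ?_⟩
      rw [ev_monomial, h0, h1, h2]
      simp [f3]
    · refine ⟨![0, 0, r, 0, 0, 0], fun {R} _ _ x y z => ?_⟩
      rw [ev_monomial, h0, h1, h2]
      simp [f3]
    · refine ⟨![0, 0, 0, r, 0, 0], fun {R} _ _ x y z => ?_⟩
      rw [ev_monomial, h0, h1, h2]
      simp [f3]
    · refine ⟨![0, 0, 0, 0, r, 0], fun {R} _ _ x y z => ?_⟩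
      rw [ev_monomial, h0, h1, h2]
      simp [f3]
    · refine ⟨![0, 0, 0, 0, 0, r], fun {R} _ _ x y z => ?_⟩
      rw [ev_monomial, h0, h1, h2]
      simp [f3]

/-- forms of degree six without `x` -/
theorem exists_f6 {F : MvPolynomial (Fin 3) K} (hF : IsWeightedHomogeneous wt F 6) :
    ∃ a : K, ∀ {R : Type} [CommRing R] [Algebra K R] (y : R),
      ev F 0 y 0 = algebraMap K R a * y ^ 3 := by
  refine IsWeightedHomogeneous.induction_on (motive := fun p _ => ∃ a : K,
    ∀ {R : Type} [CommRing R] [Algebra K R] (y : R), ev p 0 y 0 = algebraMap K R a * y ^ 3)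
    ?_ ?_ ?_ hF
  · refine ⟨0, fun {R} _ _ y => ?_⟩
    rw [ev_zero, map_zero, zero_mul]
  · rintro p q - - ⟨e, he⟩ ⟨e', he'⟩
    refine ⟨e + e', fun {R} _ _ y => ?_⟩
    rw [ev_add, he, he', map_add]
    ring
  · intro d r hd
    rw [weight_eq] at hd
    by_cases h0 : d 0 = 0
    · by_cases h2 : d 2 = 0
      · have h1 : d 1 = 3 := by omega
        refine ⟨r, fun {R} _ _ y => ?_⟩
        rw [ev_monomial, h0, h1, h2, pow_zero, one_mul, mul_one]
      · refine ⟨0, fun {R} _ _ y => ?_⟩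
        rw [ev_monomial, zero_pow h2, map_zero (algebraMap K R)]
        ring
    · refine ⟨0, fun {R} _ _ y => ?_⟩
      rw [ev_monomial, zero_pow h0, map_zero (algebraMap K R)]
      ring

theorem ev_gen (E : MvPolynomial (Fin 3) K) :
    ev E (MvPolynomial.X 0 : MvPolynomial (Fin 3) K) (MvPolynomial.X 1) (MvPolynomial.X 2) = E := by
  have h1 : (MvPolynomial.aeval ![(MvPolynomial.X 0 : MvPolynomial (Fin 3) K), MvPolynomial.X 1,
      MvPolynomial.X 2]) = AlgHom.id K (MvPolynomial (Fin 3) K) := by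
    apply MvPolynomial.algHom_ext
    intro i
    rw [MvPolynomial.aeval_X]
    fin_cases i <;> rfl
  exact DFunLike.congr_fun h1 E

theorem noX_of_ev {E : MvPolynomial (Fin 3) K}
    (h : ∀ {R : Type} [CommRing R] [Algebra K R] (x y z : R), ev E x y z = ev E 0 y z) :
    NoX E := by
  have h1 := h (MvPolynomial.X 0 : MvPolynomial (Fin 3) K) (MvPolynomial.X 1) (MvPolynomial.X 2)
  rw [ev_gen] at h1
  exact h1.symm

theorem noY_of_ev {E : MvPolynomial (Fin 3) K}
    (h : ∀ {R : Type} [CommRing R] [Algebra K R] (x y z : R), ev E x y z = ev E x 0 z) :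
    NoY E := by
  have h1 := h (MvPolynomial.X 0 : MvPolynomial (Fin 3) K) (MvPolynomial.X 1) (MvPolynomial.X 2)
  rw [ev_gen] at h1
  exact h1.symm

/-! ### Monic equations -/

/-- the zeros of the monic polynomial with the lower coefficients `c` -/
def rt (F : KFn K) (n : ℕ) (c : Fin n → Coord F) : KFn K :=
  F.line.cls ⟨fun x => x.2 ^ n + ∑ i : Fin n, (c i).val x.1 * x.2 ^ (i : ℕ), fun f x => by
    rw [map_add, map_pow, map_sum]
    congr 1
    refine Finset.sum_congr rfl fun i _ => ?_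
    rw [map_mul, map_pow, (c i).nat]
    rfl⟩

theorem rep_rt {F : KFn K} (n : ℕ) (c : Fin n → Coord F) {A : Type} [CommRing A] [Algebra K A]
    {a : F.obj A} (ha : F.Rep A a) : ∃ b, (rt F n c).Rep
      (AdjoinRoot (X ^ n + ∑ i : Fin n, C ((c i).val a) * X ^ (i : ℕ) : A[X])) b := by
  set g : A[X] := X ^ n + ∑ i : Fin n, C ((c i).val a) * X ^ (i : ℕ) with hg
  let ι : A →ₐ[K] AdjoinRoot g := IsScalarTower.toAlgHom K A (AdjoinRoot g)
  have hι : ∀ c, ι c = AdjoinRoot.of g c := fun c => rfl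
  have hroot : AdjoinRoot.root g ^ n + ∑ i : Fin n, (c i).val (F.map ι a) *
      AdjoinRoot.root g ^ (i : ℕ) = 0 := by
    have h1 := AdjoinRoot.eval₂_root g
    conv at h1 =>
      lhs
      arg 3
      rw [hg]
    rw [eval₂_add, eval₂_pow, eval₂_X, eval₂_finsetSum] at h1
    rw [← h1]
    congr 1
    refine Finset.sum_congr rfl fun i _ => ?_
    rw [eval₂_mul, eval₂_pow, eval₂_X, eval₂_C, ← (c i).nat, hι]
  refine ⟨⟨(F.map ι a, AdjoinRoot.root g), hroot⟩, ?_⟩
  intro R _ _ x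
  obtain ⟨f, hf, hu⟩ := ha R x.1.1
  have hx : x.1.2 ^ n + ∑ i : Fin n, (c i).val x.1.1 * x.1.2 ^ (i : ℕ) = 0 := x.2
  have he : eval₂ (f : A →+* R) x.1.2 g = 0 := by
    rw [hg, eval₂_add, eval₂_pow, eval₂_X, eval₂_finsetSum, ← hx]
    congr 1
    refine Finset.sum_congr rfl fun i _ => ?_
    rw [eval₂_mul, eval₂_pow, eval₂_X, eval₂_C]
    congr 1
    change f ((c i).val a) = _
    rw [(c i).nat, hf]
  let g0 : AdjoinRoot g →ₐ[K] R :=
    { AdjoinRoot.lift (f : A →+* R) x.1.2 he with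
      commutes' := fun k => by
        rw [IsScalarTower.algebraMap_apply K A (AdjoinRoot g)]
        change AdjoinRoot.lift (f : A →+* R) x.1.2 he (AdjoinRoot.of g _) = _
        rw [AdjoinRoot.lift_of]
        exact f.commutes k }
  have hg0 : g0.comp ι = f := by
    ext b
    change AdjoinRoot.lift (f : A →+* R) x.1.2 he (AdjoinRoot.of g _) = _
    rw [AdjoinRoot.lift_of]
    rfl
  have hX : g0 (AdjoinRoot.root g) = x.1.2 := by
    change AdjoinRoot.lift (f : A →+* R) x.1.2 he (AdjoinRoot.root g) = _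
    rw [AdjoinRoot.lift_root]
  refine ⟨g0, ?_, ?_⟩
  · apply Subtype.ext
    refine Prod.ext ?_ hX
    change F.map _ (F.map _ a) = x.1.1
    rw [← F.comp_map, hg0, hf]
  · intro g' hg'
    have h0 := congrArg Subtype.val hg'
    have h1 : g'.comp ι = f := by
      apply hu
      rw [F.comp_map]
      exact congrArg Prod.fst h0
    have h2 : g' (AdjoinRoot.root g) = x.1.2 := congrArg Prod.snd h0
    apply AlgHom.coe_ringHom_injective
    apply AdjoinRoot.ringHom_ext
    · ext b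
      exact DFunLike.congr_fun (h1.trans hg0.symm) b
    · exact h2.trans hX.symm

/-- **transfer for monic equations** -/
theorem mem_of_rt (hG : GOps K G) {F : KFn K} (n : ℕ) (hn : 0 < n) (c : Fin n → Coord F)
    (h : (rt F n c).Mem G) : F.Mem G := by
  intro A _ _ a hA ha
  obtain ⟨b, hb⟩ := rep_rt n c ha
  rcases subsingleton_or_nontrivial A with h0 | h0
  · exact hG.zero A h0
  have hd := degree_sum_fin_lt fun i : Fin n => (c i).val a
  have hm : (X ^ n + ∑ i : Fin n, C ((c i).val a) * X ^ (i : ℕ) : A[X]).Monic :=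
    monic_X_pow_add hd
  refine hG.transfer A _ hA hm ?_ (h _ b ?_ hb)
  · have h1 : (X ^ n + ∑ i : Fin n, C ((c i).val a) * X ^ (i : ℕ) : A[X]).degree = n := by
      rw [degree_add_eq_left_of_degree_lt, degree_X_pow]
      rw [degree_X_pow]
      exact hd
    rw [natDegree_eq_of_degree_eq_some h1]
    exact hn
  · exact hA.trans (inferInstance : Algebra.FiniteType A
      (AdjoinRoot (X ^ n + ∑ i : Fin n, C ((c i).val a) * X ^ (i : ℕ) : A[X])))

end Pool.Agent.Helper79.CP
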