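import Pool.Agent.Helper79.CP.Form

/-!
# Cones over sextics in the weighted plane: transfer
-/

set_option autoImplicit false

namespace Pool.Agent.Helper79.CP

open Pool.Agent.Helper29.CQ Pool.Agent.Helper65.CC Pool.Agent.Helper87.CC
  Pool.Agent.Helper65.CC.KFn
open Pool.Agent.Helper71.CP
open Polynomial
open MvPolynomial (IsWeightedHomogeneous)

variable {K : Type} [Field K] {G : ∀ (R : Type) [CommRing R] [Algebra K R], Prop}

/-! ### Curves -/

/-- the curve `u ^ 2 = a t ^ n` for odd `n = 2 m + 1` -/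
theorem mem_cusp [IsAlgClosed K] (hG : GOps K G) (a : K) : (BC (C a * X ^ 3)).Mem G := by
  have h1 : (C a * X ^ 3 : K[X]) = X ^ 2 * (C a * X) := by ring
  rw [h1]
  refine BC.sq_mul hG X X_ne_zero (BC.deg_two hG _ ?_)
  refine (natDegree_C_mul_le _ _).trans ?_
  rw [natDegree_X]
  norm_num

theorem mem_six [IsAlgClosed K] (hG : GOps K G) (a : K) : (BC (C a * X ^ 6)).Mem G := by
  obtain ⟨s, hs⟩ := IsAlgClosed.exists_pow_nat_eq a (n := 2) two_pos
  have h1 : (C a * X ^ 6 : K[X]) = (C s * X ^ 3) ^ 2 := by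
    rw [← hs, C_pow]
    ring
  rw [h1]
  exact BC.square hG _

/-! ### The base of a cone without `x` -/

/-- the base of a cone without `x` -/
noncomputable def EX (F : MvPolynomial (Fin 3) K) : KFn K :=
  (A3 K).cls ⟨fun x => x.2.2 ^ 2 - ev F 0 x.1 x.2.1, fun f x => by
    rw [map_sub, map_pow, ev_map, map_zero]
    rfl⟩

instance (F : MvPolynomial (Fin 3) K) : Rp (EX F) := by
  unfold EX
  infer_instance

/-- the cone is the product of the base and a line -/
noncomputable def lineX (F : MvPolynomial (Fin 3) K) (h : NoX F) : Iso (CW F) (EX F).line where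
  hom {R} _ _ x := (⟨(x.1.2.1, x.1.2.2.1, x.1.2.2.2), by
    have h1 : x.1.2.2.2 ^ 2 - ev F x.1.1 x.1.2.1 x.1.2.2.1 = 0 := x.2
    rw [h.ev] at h1
    exact h1⟩, x.1.1)
  inv {R} _ _ y := ⟨(y.2, y.1.1.1, y.1.1.2.1, y.1.1.2.2), by
    change y.1.1.2.2 ^ 2 - ev F y.2 y.1.1.1 y.1.1.2.1 = 0
    rw [h.ev]
    exact y.1.2⟩
  inv_hom _ := rfl
  hom_inv _ := rfl
  nat _ _ := rfl

/-- the coordinate `z` on the base -/
noncomputable def EX.z (F : MvPolynomial (Fin 3) K) : Coord (EX F) := ⟨fun x => x.1.2.1, fun _ _ => rfl⟩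

/-- the part of the base at infinity -/
theorem mem_EXz [IsAlgClosed K] (hG : GOps K G) {F : MvPolynomial (Fin 3) K}
    (hF : IsWeightedHomogeneous wt F 6) : ((EX F).cls (EX.z F)).Mem G := by
  obtain ⟨a, ha⟩ := exists_f6 hF
  have ev1 : ∀ (R : Type) [CommRing R] [Algebra K R] (y : R),
      aeval y (C a * X ^ 3 : K[X]) = ev F 0 y 0 := by
    intro R _ _ y
    rw [ha, map_mul, map_pow, aeval_C, aeval_X]
  refine Mem.of_iso ?_ (mem_cusp hG a)
  exact
    { hom := fun {R} _ _ x => ⟨(x.1.1.1, x.1.1.2.2), by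
        have h1 : x.1.1.2.2 ^ 2 - ev F 0 x.1.1.1 x.1.1.2.1 = 0 := x.1.2
        have h2 : x.1.1.2.1 = 0 := x.2
        rw [h2, ← ev1] at h1
        exact h1⟩
      inv := fun {R} _ _ y => ⟨⟨(y.1.1, 0, y.1.2), by
        have h1 : y.1.2 ^ 2 - aeval y.1.1 (C a * X ^ 3 : K[X]) = 0 := y.2
        rw [ev1] at h1
        exact h1⟩, rfl⟩
      inv_hom := fun {R} _ _ x => by
        have h2 : x.1.1.2.1 = 0 := x.2
        exact Subtype.ext (Subtype.ext (Prod.ext rfl (Prod.ext h2.symm rfl)))
      hom_inv := fun _ => rfl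
      nat := fun _ _ => rfl }

/-- the double cover of the curve `E = 0` -/
noncomputable abbrev DX (F E : MvPolynomial (Fin 3) K) : KFn K := (CW F).cls (CW.c F E)

/-- the coordinate `z` -/
noncomputable def DX.z (F E : MvPolynomial (Fin 3) K) : Coord (DX F E) :=
  ⟨fun x => x.1.1.2.2.1, fun _ _ => rfl⟩

/-- the first case: a cubic equation -/
theorem base_cubic (hG : GOps K G) (F E : MvPolynomial (Fin 3) K) (e : Fin 6 → K) (hFx : NoX F)
    (hE : ∀ {R : Type} [CommRing R] [Algebra K R] (x y z : R), ev E x y z = f3 e x y z)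
    (h0 : e 0 ≠ 0) (hD : (DX F E).Mem G) : (EX F).Mem G := by
  let c0 : Coord (EX F) := ⟨fun {R} _ _ x => algebraMap K R (e 0)⁻¹ *
    (algebraMap K R (e 3) * x.1.2.1 ^ 3 + algebraMap K R (e 5) * (x.1.1 * x.1.2.1)), fun f x => by
      simp only [map_add, map_mul, map_pow, AlgHom.commutes]
      rfl⟩
  let c1 : Coord (EX F) := ⟨fun {R} _ _ x => algebraMap K R (e 0)⁻¹ *
    (algebraMap K R (e 2) * x.1.2.1 ^ 2 + algebraMap K R (e 4) * x.1.1), fun f x => by
      simp only [map_add, map_mul, map_pow, AlgHom.commutes]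
      rfl⟩
  let c2 : Coord (EX F) := ⟨fun {R} _ _ x => algebraMap K R (e 0)⁻¹ *
    (algebraMap K R (e 1) * x.1.2.1), fun f x => by
      simp only [map_mul, AlgHom.commutes]
      rfl⟩
  have e1 : ∀ (R : Type) [CommRing R] [Algebra K R],
      algebraMap K R (e 0) * algebraMap K R (e 0)⁻¹ = 1 := fun R _ _ => by
    rw [← map_mul, mul_inv_cancel₀ h0, map_one]
  refine mem_of_rt hG 3 (by norm_num) ![c0, c1, c2] (Mem.of_iso ?_ hD)
  have hval : ∀ {R : Type} [CommRing R] [Algebra K R] (x : (EX F).obj R) (t : R),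
      t ^ 3 + ∑ i : Fin 3, ((![c0, c1, c2] : Fin 3 → Coord (EX F)) i).val x * t ^ (i : ℕ) =
      algebraMap K R (e 0)⁻¹ * f3 e t x.1.1 x.1.2.1 := by
    intro R _ _ x t
    have h2 := e1 R
    rw [Fin.sum_univ_three]
    change t ^ 3 + (c0.val x * t ^ 0 + c1.val x * t ^ 1 + c2.val x * t ^ 2) = _
    simp only [c0, c1, c2, f3]
    linear_combination (-t ^ 3) * h2
  exact
    { hom := fun {R} _ _ x => ⟨⟨(x.1.2, x.1.1.1.1, x.1.1.1.2.1, x.1.1.1.2.2), by
          change x.1.1.1.2.2 ^ 2 - ev F x.1.2 x.1.1.1.1 x.1.1.1.2.1 = 0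
          rw [hFx.ev]
          exact x.1.1.2⟩, by
          have h2 : x.1.2 ^ 3 + ∑ i : Fin 3, ((![c0, c1, c2] : Fin 3 → Coord (EX F)) i).val x.1.1 *
            x.1.2 ^ (i : ℕ) = 0 := x.2
          rw [hval] at h2
          change ev E x.1.2 x.1.1.1.1 x.1.1.1.2.1 = 0
          rw [hE]
          have h3 := e1 R
          linear_combination algebraMap K R (e 0) * h2 - f3 e x.1.2 x.1.1.1.1 x.1.1.1.2.1 * h3⟩
      inv := fun {R} _ _ y => ⟨(⟨(y.1.1.2.1, y.1.1.2.2.1, y.1.1.2.2.2), by
          have h3 : y.1.1.2.2.2 ^ 2 - ev F y.1.1.1 y.1.1.2.1 y.1.1.2.2.1 = 0 := y.1.2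
          rw [hFx.ev] at h3
          exact h3⟩, y.1.1.1), by
          have h3 : ev E y.1.1.1 y.1.1.2.1 y.1.1.2.2.1 = 0 := y.2
          rw [hE] at h3
          refine (hval _ _).trans ?_
          change algebraMap K R (e 0)⁻¹ * f3 e y.1.1.1 y.1.1.2.1 y.1.1.2.2.1 = 0
          rw [h3, mul_zero]⟩
      inv_hom := fun _ => rfl
      hom_inv := fun _ => rfl
      nat := fun _ _ => rfl }

/-- the part at infinity of the double cover of the curve `E = 0`, `E` without `x ^ 3` -/
theorem mem_DXz [IsAlgClosed K] (hG : GOps K G) (F E : MvPolynomial (Fin 3) K) (e : Fin 6 → K)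
    (hF : IsWeightedHomogeneous wt F 6) (hFx : NoX F)
    (hE : ∀ {R : Type} [CommRing R] [Algebra K R] (x y z : R), ev E x y z = f3 e x y z)
    (h0 : e 0 = 0) : ((DX F E).cls (DX.z F E)).Mem G := by
  obtain ⟨a, ha⟩ := exists_f6 hF
  have ev1 : ∀ (R : Type) [CommRing R] [Algebra K R] (y : R),
      aeval y (C a * X ^ 3 : K[X]) = ev F 0 y 0 := by
    intro R _ _ y
    rw [ha, map_mul, map_pow, aeval_C, aeval_X]
  have ev2 : ∀ (R : Type) [CommRing R] [Algebra K R] (x y : R),
      ev E x y 0 = algebraMap K R (e 4) * (x * y) := by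
    intro R _ _ x y
    rw [hE]
    simp only [f3, h0, map_zero]
    ring
  have hB := mem_cusp hG a
  by_cases h4 : e 4 = 0
  · refine Mem.of_iso ?_ (Mem.line hG.toKOps hB)
    exact
      { hom := fun {R} _ _ x => (⟨(x.1.1.1.2.1, x.1.1.1.2.2.2), by
          have h1 : x.1.1.1.2.2.2 ^ 2 - ev F x.1.1.1.1 x.1.1.1.2.1 x.1.1.1.2.2.1 = 0 := x.1.1.2
          have h2 : x.1.1.1.2.2.1 = 0 := x.2
          rw [hFx.ev, h2, ← ev1] at h1
          exact h1⟩, x.1.1.1.1)
        inv := fun {R} _ _ y => ⟨⟨⟨(y.2, y.1.1.1, 0, y.1.1.2), by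
          have h1 : y.1.1.2 ^ 2 - aeval y.1.1.1 (C a * X ^ 3 : K[X]) = 0 := y.1.2
          rw [ev1] at h1
          change y.1.1.2 ^ 2 - ev F y.2 y.1.1.1 0 = 0
          rw [hFx.ev]
          exact h1⟩, by
          change ev E y.2 y.1.1.1 0 = 0
          rw [ev2, h4, map_zero, zero_mul]⟩, rfl⟩
        inv_hom := fun {R} _ _ x => by
          have h2 : x.1.1.1.2.2.1 = 0 := x.2
          exact Subtype.ext (Subtype.ext (Subtype.ext (Prod.ext rfl (Prod.ext rfl
            (Prod.ext h2.symm rfl)))))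
        hom_inv := fun _ => rfl
        nat := fun _ _ => rfl }
  · have hu : ∀ (R : Type) [CommRing R] [Algebra K R], IsUnit (algebraMap K R (e 4)) :=
      fun R _ _ => unit_const h4
    let y : Coord ((DX F E).cls (DX.z F E)) := ⟨fun x => x.1.1.1.2.1, fun _ _ => rfl⟩
    refine Mem.glue hG.toKOps y ?_ ?_
    · refine Mem.of_iso ?_ (BC.opn hG _ X X_ne_zero hB)
      exact
        { hom := fun {R} _ _ x => ⟨⟨(x.1.1.1.1.2.1, x.1.1.1.1.2.2.2), by
            have h1 : x.1.1.1.1.2.2.2 ^ 2 - ev F x.1.1.1.1.1 x.1.1.1.1.2.1 x.1.1.1.1.2.2.1 = 0 :=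
              x.1.1.1.2
            have h2 : x.1.1.1.1.2.2.1 = 0 := x.1.2
            rw [hFx.ev, h2, ← ev1] at h1
            exact h1⟩, by
            change IsUnit (aeval x.1.1.1.1.2.1 (X : K[X]))
            rw [aeval_X]
            exact x.2⟩
          inv := fun {R} _ _ y => ⟨⟨⟨⟨(0, y.1.1.1, 0, y.1.1.2), by
            have h1 : y.1.1.2 ^ 2 - aeval y.1.1.1 (C a * X ^ 3 : K[X]) = 0 := y.1.2
            rw [ev1] at h1
            exact h1⟩, by
            change ev E 0 y.1.1.1 0 = 0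
            rw [ev2]
            ring⟩, rfl⟩, by
            have h1 : IsUnit (aeval y.1.1.1 (X : K[X])) := y.2
            rw [aeval_X] at h1
            exact h1⟩
          inv_hom := fun {R} _ _ x => by
            have h2 : x.1.1.1.1.2.2.1 = 0 := x.1.2
            have h3 : ev E x.1.1.1.1.1 x.1.1.1.1.2.1 x.1.1.1.1.2.2.1 = 0 := x.1.1.2
            rw [h2, ev2] at h3
            have h4 : IsUnit x.1.1.1.1.2.1 := x.2
            have h5 : x.1.1.1.1.1 = 0 := by
              have h6 := (hu R).mul_right_eq_zero.1 h3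
              exact h4.mul_left_eq_zero.1 h6
            exact Subtype.ext (Subtype.ext (Subtype.ext (Subtype.ext (Prod.ext h5.symm
              (Prod.ext rfl (Prod.ext h2.symm rfl))))))
          hom_inv := fun _ => rfl
          nat := fun _ _ => rfl }
    · refine Mem.of_iso ?_ (Mem.line hG.toKOps
        (Pool.Agent.Helper71.QP.BC.cls_any hG (C a * X ^ 3) X hB))
      exact
        { hom := fun {R} _ _ x => (⟨⟨(x.1.1.1.1.2.1, x.1.1.1.1.2.2.2), by
            have h1 : x.1.1.1.1.2.2.2 ^ 2 - ev F x.1.1.1.1.1 x.1.1.1.1.2.1 x.1.1.1.1.2.2.1 = 0 :=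
              x.1.1.1.2
            have h2 : x.1.1.1.1.2.2.1 = 0 := x.1.2
            rw [hFx.ev, h2, ← ev1] at h1
            exact h1⟩, by
            change aeval x.1.1.1.1.2.1 (X : K[X]) = 0
            rw [aeval_X]
            exact x.2⟩, x.1.1.1.1.1)
          inv := fun {R} _ _ y => ⟨⟨⟨⟨(y.2, y.1.1.1.1, 0, y.1.1.1.2), by
            have h1 : y.1.1.1.2 ^ 2 - aeval y.1.1.1.1 (C a * X ^ 3 : K[X]) = 0 := y.1.1.2
            rw [ev1] at h1
            change y.1.1.1.2 ^ 2 - ev F y.2 y.1.1.1.1 0 = 0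
            rw [hFx.ev]
            exact h1⟩, by
            have h1 : aeval y.1.1.1.1 (X : K[X]) = 0 := y.1.2
            rw [aeval_X] at h1
            change ev E y.2 y.1.1.1.1 0 = 0
            rw [ev2, h1, mul_zero, mul_zero]⟩, rfl⟩, by
            have h1 : aeval y.1.1.1.1 (X : K[X]) = 0 := y.1.2
            rw [aeval_X] at h1
            exact h1⟩
          inv_hom := fun {R} _ _ x => by
            have h2 : x.1.1.1.1.2.2.1 = 0 := x.1.2
            exact Subtype.ext (Subtype.ext (Subtype.ext (Subtype.ext (Prod.ext rfl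
              (Prod.ext rfl (Prod.ext h2.symm rfl))))))
          hom_inv := fun _ => rfl
          nat := fun _ _ => rfl }

/-- the second case: a quadratic equation where `z` is invertible -/
theorem base_quad [IsAlgClosed K] (hG : GOps K G) (F E : MvPolynomial (Fin 3) K) (e : Fin 6 → K)
    (hF : IsWeightedHomogeneous wt F 6) (hFx : NoX F)
    (hE : ∀ {R : Type} [CommRing R] [Algebra K R] (x y z : R), ev E x y z = f3 e x y z)
    (h0 : e 0 = 0) (h1 : e 1 ≠ 0) (hD : (DX F E).Mem G) : (EX F).Mem G := by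
  have hDo : ((DX F E).opn (DX.z F E)).Mem G :=
    mem_opn hG.toKOps _ hD (mem_DXz hG F E e hF hFx hE h0)
  refine Mem.glue hG.toKOps (EX.z F) ?_ (mem_EXz hG hF)
  let i : Coord ((EX F).opn (EX.z F)) := ⟨fun {R} _ _ x => algebraMap K R (e 1)⁻¹ *
    Ring.inverse x.1.1.2.1, fun {R S} _ _ _ _ f x => by
      have h3 := inv_nat f (a := x.1.1.2.1) x.2
      rw [map_mul, AlgHom.commutes, h3]
      rfl⟩
  let c0 : Coord ((EX F).opn (EX.z F)) := ⟨fun {R} _ _ x => i.val x *
    (algebraMap K R (e 3) * x.1.1.2.1 ^ 3 + algebraMap K R (e 5) * (x.1.1.1 * x.1.1.2.1)),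
    fun f x => by
      rw [map_mul, i.nat]
      simp only [map_add, map_mul, map_pow, AlgHom.commutes]
      rfl⟩
  let c1 : Coord ((EX F).opn (EX.z F)) := ⟨fun {R} _ _ x => i.val x *
    (algebraMap K R (e 2) * x.1.1.2.1 ^ 2 + algebraMap K R (e 4) * x.1.1.1), fun f x => by
      rw [map_mul, i.nat]
      simp only [map_add, map_mul, map_pow, AlgHom.commutes]
      rfl⟩
  have e1 : ∀ (R : Type) [CommRing R] [Algebra K R],
      algebraMap K R (e 1) * algebraMap K R (e 1)⁻¹ = 1 := fun R _ _ => by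
    rw [← map_mul, mul_inv_cancel₀ h1, map_one]
  have hi : ∀ {R : Type} [CommRing R] [Algebra K R] (x : ((EX F).opn (EX.z F)).obj R),
      (algebraMap K R (e 1) * x.1.1.2.1) * i.val x = 1 := by
    intro R _ _ x
    have h3 := mul_inv' (a := x.1.1.2.1) x.2
    have h4 := e1 R
    change (algebraMap K R (e 1) * x.1.1.2.1) * (algebraMap K R (e 1)⁻¹ *
      Ring.inverse x.1.1.2.1) = 1
    linear_combination (algebraMap K R (e 1) * algebraMap K R (e 1)⁻¹) * h3 + h4
  have hval : ∀ {R : Type} [CommRing R] [Algebra K R] (x : ((EX F).opn (EX.z F)).obj R) (t : R),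
      t ^ 2 + ∑ j : Fin 2, ((![c0, c1] : Fin 2 → Coord ((EX F).opn (EX.z F))) j).val x *
        t ^ (j : ℕ) = i.val x * f3 e t x.1.1.1 x.1.1.2.1 := by
    intro R _ _ x t
    have h2 := hi x
    rw [Fin.sum_univ_two]
    change t ^ 2 + (c0.val x * t ^ 0 + c1.val x * t ^ 1) = _
    simp only [c0, c1, f3, h0, map_zero]
    linear_combination (-t ^ 2) * h2
  refine mem_of_rt hG 2 (by norm_num) ![c0, c1] (Mem.of_iso ?_ hDo)
  exact
    { hom := fun {R} _ _ x => ⟨⟨⟨(x.1.2, x.1.1.1.1.1, x.1.1.1.1.2.1, x.1.1.1.1.2.2), by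
          change x.1.1.1.1.2.2 ^ 2 - ev F x.1.2 x.1.1.1.1.1 x.1.1.1.1.2.1 = 0
          rw [hFx.ev]
          exact x.1.1.1.2⟩, by
          have h2 : x.1.2 ^ 2 + ∑ j : Fin 2, ((![c0, c1] : Fin 2 → Coord ((EX F).opn (EX.z F)))
            j).val x.1.1 * x.1.2 ^ (j : ℕ) = 0 := x.2
          rw [hval] at h2
          change ev E x.1.2 x.1.1.1.1.1 x.1.1.1.1.2.1 = 0
          rw [hE]
          have h3 := hi x.1.1
          linear_combination (algebraMap K R (e 1) * x.1.1.1.1.2.1) * h2 -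
            f3 e x.1.2 x.1.1.1.1.1 x.1.1.1.1.2.1 * h3⟩, x.1.1.2⟩
      inv := fun {R} _ _ y => ⟨(⟨⟨(y.1.1.1.2.1, y.1.1.1.2.2.1, y.1.1.1.2.2.2), by
          have h3 : y.1.1.1.2.2.2 ^ 2 - ev F y.1.1.1.1 y.1.1.1.2.1 y.1.1.1.2.2.1 = 0 := y.1.1.2
          rw [hFx.ev] at h3
          exact h3⟩, y.2⟩, y.1.1.1.1), by
          have h3 : ev E y.1.1.1.1 y.1.1.1.2.1 y.1.1.1.2.2.1 = 0 := y.1.2
          rw [hE] at h3
          refine (hval _ _).trans ?_
          change i.val _ * f3 e y.1.1.1.1 y.1.1.1.2.1 y.1.1.1.2.2.1 = 0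
          rw [h3, mul_zero]⟩
      inv_hom := fun _ => rfl
      hom_inv := fun _ => rfl
      nat := fun _ _ => rfl }

/-- the third case: `z` is invertible in the linear equation -/
theorem base_linz [IsAlgClosed K] (hG : GOps K G) (F E : MvPolynomial (Fin 3) K) (e : Fin 6 → K)
    (hF : IsWeightedHomogeneous wt F 6) (hFx : NoX F)
    (hE : ∀ {R : Type} [CommRing R] [Algebra K R] (x y z : R), ev E x y z = f3 e x y z)
    (h0 : e 0 = 0) (h1 : e 1 = 0) (h4 : e 4 = 0) (h2 : e 2 ≠ 0) (hD : (DX F E).Mem G) :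
    (EX F).Mem G := by
  have hDo : ((DX F E).opn (DX.z F E)).Mem G :=
    mem_opn hG.toKOps _ hD (mem_DXz hG F E e hF hFx hE h0)
  refine Mem.glue hG.toKOps (EX.z F) ?_ (mem_EXz hG hF)
  have e1 : ∀ (R : Type) [CommRing R] [Algebra K R],
      algebraMap K R (e 2) * algebraMap K R (e 2)⁻¹ = 1 := fun R _ _ => by
    rw [← map_mul, mul_inv_cancel₀ h2, map_one]
  have ev2 : ∀ (R : Type) [CommRing R] [Algebra K R] (x y z : R), ev E x y z =
      algebraMap K R (e 2) * z ^ 2 * x + (algebraMap K R (e 3) * z ^ 3 +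
        algebraMap K R (e 5) * (y * z)) := by
    intro R _ _ x y z
    rw [hE]
    simp only [f3, h0, h1, h4, map_zero]
    ring
  refine Mem.of_iso ?_ hDo
  exact
    { hom := fun {R} _ _ x => ⟨⟨⟨(-(algebraMap K R (e 3) * x.1.1.2.1 ^ 3 +
          algebraMap K R (e 5) * (x.1.1.1 * x.1.1.2.1)) *
          (algebraMap K R (e 2)⁻¹ * Ring.inverse x.1.1.2.1 ^ 2), x.1.1.1, x.1.1.2.1, x.1.1.2.2), by
          change x.1.1.2.2 ^ 2 - ev F _ x.1.1.1 x.1.1.2.1 = 0
          rw [hFx.ev]
          exact x.1.2⟩, by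
          have h3 := mul_inv' (a := x.1.1.2.1) x.2
          have h5 := e1 R
          change ev E (-(algebraMap K R (e 3) * x.1.1.2.1 ^ 3 +
            algebraMap K R (e 5) * (x.1.1.1 * x.1.1.2.1)) *
            (algebraMap K R (e 2)⁻¹ * Ring.inverse x.1.1.2.1 ^ 2)) x.1.1.1 x.1.1.2.1 = 0
          rw [ev2]
          set z := x.1.1.2.1
          set j := Ring.inverse z
          set r := algebraMap K R (e 3) * z ^ 3 + algebraMap K R (e 5) * (x.1.1.1 * z)
          linear_combination (-r * (algebraMap K R (e 2) * algebraMap K R (e 2)⁻¹) *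
            (z * j + 1)) * h3 - r * h5⟩, x.2⟩
      inv := fun {R} _ _ y => ⟨⟨(y.1.1.1.2.1, y.1.1.1.2.2.1, y.1.1.1.2.2.2), by
          have h3 : y.1.1.1.2.2.2 ^ 2 - ev F y.1.1.1.1 y.1.1.1.2.1 y.1.1.1.2.2.1 = 0 := y.1.1.2
          rw [hFx.ev] at h3
          exact h3⟩, y.2⟩
      inv_hom := fun _ => rfl
      hom_inv := fun {R} _ _ y => by
          have h3 := mul_inv' (a := y.1.1.1.2.2.1) y.2
          have h5 := e1 R
          have h6 : ev E y.1.1.1.1 y.1.1.1.2.1 y.1.1.1.2.2.1 = 0 := y.1.2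
          rw [ev2] at h6
          refine Subtype.ext (Subtype.ext (Subtype.ext (Prod.ext ?_ rfl)))
          change -(algebraMap K R (e 3) * y.1.1.1.2.2.1 ^ 3 +
            algebraMap K R (e 5) * (y.1.1.1.2.1 * y.1.1.1.2.2.1)) *
            (algebraMap K R (e 2)⁻¹ * Ring.inverse y.1.1.1.2.2.1 ^ 2) = y.1.1.1.1
          set z := y.1.1.1.2.2.1
          set j := Ring.inverse z
          set k := algebraMap K R (e 2)⁻¹
          linear_combination (-(k * j ^ 2)) * h6 + y.1.1.1.1 * (z * j) ^ 2 * h5 +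
            y.1.1.1.1 * (z * j + 1) * h3
      nat := fun {R S} _ _ _ _ f x => by
          have h3 := inv_nat f (a := x.1.1.2.1) x.2
          refine Subtype.ext (Subtype.ext (Subtype.ext (Prod.ext ?_ rfl)))
          change f (-(algebraMap K R (e 3) * x.1.1.2.1 ^ 3 +
            algebraMap K R (e 5) * (x.1.1.1 * x.1.1.2.1)) *
            (algebraMap K R (e 2)⁻¹ * Ring.inverse x.1.1.2.1 ^ 2)) =
            -(algebraMap K S (e 3) * (f x.1.1.2.1) ^ 3 +
            algebraMap K S (e 5) * (f x.1.1.1 * f x.1.1.2.1)) *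
            (algebraMap K S (e 2)⁻¹ * Ring.inverse (f x.1.1.2.1) ^ 2)
          simp only [map_neg, map_add, map_mul, map_pow, AlgHom.commutes, h3] }

/-- the fourth case: a linear equation with the coefficient `e2 z ^ 2 + e4 y` -/
theorem base_liny [IsAlgClosed K] (hG : GOps K G) (F E : MvPolynomial (Fin 3) K) (e : Fin 6 → K)
    (hF : IsWeightedHomogeneous wt F 6) (hFx : NoX F)
    (hE : ∀ {R : Type} [CommRing R] [Algebra K R] (x y z : R), ev E x y z = f3 e x y z)
    (h0 : e 0 = 0) (h1 : e 1 = 0) (h4 : e 4 ≠ 0) (hD : (DX F E).Mem G) :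
    (EX F).Mem G := by
  have ev2 : ∀ (R : Type) [CommRing R] [Algebra K R] (x y z : R), ev E x y z =
      (algebraMap K R (e 2) * z ^ 2 + algebraMap K R (e 4) * y) * x +
        (algebraMap K R (e 3) * z ^ 3 + algebraMap K R (e 5) * (y * z)) := by
    intro R _ _ x y z
    rw [hE]
    simp only [f3, h0, h1, map_zero]
    ring
  let b : K := -(e 2 / e 4)
  have hb : e 2 + e 4 * b = 0 := by
    change e 2 + e 4 * -(e 2 / e 4) = 0
    rw [mul_neg, mul_div_cancel₀ _ h4]
    ring
  have hb' : ∀ (R : Type) [CommRing R] [Algebra K R],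
      algebraMap K R (e 2) + algebraMap K R (e 4) * algebraMap K R b = 0 := fun R _ _ => by
    rw [← map_mul, ← map_add, hb, map_zero]
  have e1 : ∀ (R : Type) [CommRing R] [Algebra K R],
      algebraMap K R (e 4)⁻¹ * algebraMap K R (e 4) = 1 := fun R _ _ => by
    rw [← map_mul, inv_mul_cancel₀ h4, map_one]
  -- the points where the coefficient vanishes
  have hy : ∀ (R : Type) [CommRing R] [Algebra K R] (y z : R),
      algebraMap K R (e 2) * z ^ 2 + algebraMap K R (e 4) * y = 0 →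
      y = algebraMap K R b * z ^ 2 := by
    intro R _ _ y z h
    have h5 := e1 R
    have h6 := hb' R
    linear_combination (algebraMap K R (e 4)⁻¹) * h - (y - algebraMap K R b * z ^ 2) * h5 -
      algebraMap K R (e 4)⁻¹ * z ^ 2 * h6
  let δ : K := ev F (0 : K) b 1
  have ev3 : ∀ (R : Type) [CommRing R] [Algebra K R] (z : R),
      ev F 0 (algebraMap K R b * z ^ 2) z = algebraMap K R δ * z ^ 6 := by
    intro R _ _ z
    have h5 := ev_scale hF z 0 (algebraMap K R b) 1
    rw [mul_zero, mul_one, mul_comm (z ^ 2)] at h5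
    rw [h5, mul_comm]
    have h6 := ev_map F (Algebra.ofId K R) 0 b 1
    rw [map_zero, map_one] at h6
    rw [← Algebra.ofId_apply, ← Algebra.ofId_apply, ← h6]
  have ev4 : ∀ (R : Type) [CommRing R] [Algebra K R] (z : R),
      aeval z (C δ * X ^ 6 : K[X]) = algebraMap K R δ * z ^ 6 := by
    intro R _ _ z
    rw [map_mul, map_pow, aeval_C, aeval_X]
  let m : K := e 3 + e 5 * b
  have ev5 : ∀ (R : Type) [CommRing R] [Algebra K R] (z : R),
      aeval z (C m * X ^ 3 : K[X]) = (algebraMap K R (e 3) + algebraMap K R (e 5) *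
        algebraMap K R b) * z ^ 3 := by
    intro R _ _ z
    rw [map_mul, map_pow, aeval_C, aeval_X, map_add, map_mul]
  have hB := mem_six hG δ
  let l : Coord (EX F) := ⟨fun {R} _ _ x => algebraMap K R (e 2) * x.1.2.1 ^ 2 +
    algebraMap K R (e 4) * x.1.1, fun f x => by
      simp only [map_add, map_mul, map_pow, AlgHom.commutes]
      rfl⟩
  let l' : Coord (DX F E) := ⟨fun {R} _ _ x => algebraMap K R (e 2) * x.1.1.2.2.1 ^ 2 +
    algebraMap K R (e 4) * x.1.1.2.1, fun f x => by
      simp only [map_add, map_mul, map_pow, AlgHom.commutes]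
      rfl⟩
  have hcl : ((DX F E).cls l').Mem G := by
    refine Mem.of_iso ?_ (Mem.line hG.toKOps
      (Pool.Agent.Helper71.QP.BC.cls_any hG (C δ * X ^ 6) (C m * X ^ 3) hB))
    exact
      { hom := fun {R} _ _ x => (⟨⟨(x.1.1.1.2.2.1, x.1.1.1.2.2.2), by
            have h5 : x.1.1.1.2.2.2 ^ 2 - ev F x.1.1.1.1 x.1.1.1.2.1 x.1.1.1.2.2.1 = 0 := x.1.1.2
            have h6 := hy R x.1.1.1.2.1 x.1.1.1.2.2.1 x.2
            rw [hFx.ev, h6, ev3, ← ev4] at h5
            exact h5⟩, by
            have h5 : ev E x.1.1.1.1 x.1.1.1.2.1 x.1.1.1.2.2.1 = 0 := x.1.2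
            have h6 := hy R x.1.1.1.2.1 x.1.1.1.2.2.1 x.2
            have h7 : algebraMap K R (e 2) * x.1.1.1.2.2.1 ^ 2 +
              algebraMap K R (e 4) * x.1.1.1.2.1 = 0 := x.2
            rw [ev2, h7, h6] at h5
            change aeval x.1.1.1.2.2.1 (C m * X ^ 3 : K[X]) = 0
            rw [ev5]
            linear_combination h5⟩, x.1.1.1.1)
        inv := fun {R} _ _ y => ⟨⟨⟨(y.2, algebraMap K R b * y.1.1.1.1 ^ 2, y.1.1.1.1, y.1.1.1.2), by
            have h5 : y.1.1.1.2 ^ 2 - aeval y.1.1.1.1 (C δ * X ^ 6 : K[X]) = 0 := y.1.1.2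
            rw [ev4, ← ev3] at h5
            change y.1.1.1.2 ^ 2 - ev F y.2 (algebraMap K R b * y.1.1.1.1 ^ 2) y.1.1.1.1 = 0
            rw [hFx.ev]
            exact h5⟩, by
            have h5 : aeval y.1.1.1.1 (C m * X ^ 3 : K[X]) = 0 := y.1.2
            rw [ev5] at h5
            change ev E y.2 (algebraMap K R b * y.1.1.1.1 ^ 2) y.1.1.1.1 = 0
            rw [ev2]
            have h6 := hb' R
            linear_combination h5 + y.2 * y.1.1.1.1 ^ 2 * h6⟩, by
            change algebraMap K R (e 2) * y.1.1.1.1 ^ 2 +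
              algebraMap K R (e 4) * (algebraMap K R b * y.1.1.1.1 ^ 2) = 0
            have h6 := hb' R
            linear_combination y.1.1.1.1 ^ 2 * h6⟩
        inv_hom := fun {R} _ _ x => by
            have h6 := hy R x.1.1.1.2.1 x.1.1.1.2.2.1 x.2
            exact Subtype.ext (Subtype.ext (Subtype.ext (Prod.ext rfl (Prod.ext h6.symm rfl))))
        hom_inv := fun _ => rfl
        nat := fun {R S} _ _ _ _ f x => rfl }
  have hDo : ((DX F E).opn l').Mem G := mem_opn hG.toKOps _ hD hcl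
  refine Mem.glue hG.toKOps l (Mem.of_iso ?_ hDo) (Mem.of_iso ?_ hB)
  · exact
      { hom := fun {R} _ _ x => ⟨⟨⟨(-(algebraMap K R (e 3) * x.1.1.2.1 ^ 3 +
            algebraMap K R (e 5) * (x.1.1.1 * x.1.1.2.1)) *
            Ring.inverse (l.val x.1), x.1.1.1, x.1.1.2.1, x.1.1.2.2), by
            change x.1.1.2.2 ^ 2 - ev F _ x.1.1.1 x.1.1.2.1 = 0
            rw [hFx.ev]
            exact x.1.2⟩, by
            have h3 := mul_inv' (a := l.val x.1) x.2
            change ev E (-(algebraMap K R (e 3) * x.1.1.2.1 ^ 3 +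
              algebraMap K R (e 5) * (x.1.1.1 * x.1.1.2.1)) *
              Ring.inverse (l.val x.1)) x.1.1.1 x.1.1.2.1 = 0
            rw [ev2]
            change l.val x.1 * (-(algebraMap K R (e 3) * x.1.1.2.1 ^ 3 +
              algebraMap K R (e 5) * (x.1.1.1 * x.1.1.2.1)) *
              Ring.inverse (l.val x.1)) + (algebraMap K R (e 3) * x.1.1.2.1 ^ 3 +
              algebraMap K R (e 5) * (x.1.1.1 * x.1.1.2.1)) = 0
            linear_combination (-(algebraMap K R (e 3) * x.1.1.2.1 ^ 3 +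
              algebraMap K R (e 5) * (x.1.1.1 * x.1.1.2.1))) * h3⟩, x.2⟩
        inv := fun {R} _ _ y => ⟨⟨(y.1.1.1.2.1, y.1.1.1.2.2.1, y.1.1.1.2.2.2), by
            have h3 : y.1.1.1.2.2.2 ^ 2 - ev F y.1.1.1.1 y.1.1.1.2.1 y.1.1.1.2.2.1 = 0 := y.1.1.2
            rw [hFx.ev] at h3
            exact h3⟩, y.2⟩
        inv_hom := fun _ => rfl
        hom_inv := fun {R} _ _ y => by
            have h3 := mul_inv' (a := l'.val y.1) y.2
            have h6 : ev E y.1.1.1.1 y.1.1.1.2.1 y.1.1.1.2.2.1 = 0 := y.1.2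
            rw [ev2] at h6
            refine Subtype.ext (Subtype.ext (Subtype.ext (Prod.ext ?_ rfl)))
            change -(algebraMap K R (e 3) * y.1.1.1.2.2.1 ^ 3 +
              algebraMap K R (e 5) * (y.1.1.1.2.1 * y.1.1.1.2.2.1)) *
              Ring.inverse (l'.val y.1) = y.1.1.1.1
            have h7 : l'.val y.1 * y.1.1.1.1 + (algebraMap K R (e 3) * y.1.1.1.2.2.1 ^ 3 +
              algebraMap K R (e 5) * (y.1.1.1.2.1 * y.1.1.1.2.2.1)) = 0 := h6
            linear_combination (-Ring.inverse (l'.val y.1)) * h7 + y.1.1.1.1 * h3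
        nat := fun {R S} _ _ _ _ f x => by
            have h3 := inv_nat f (a := l.val x.1) x.2
            rw [l.nat] at h3
            refine Subtype.ext (Subtype.ext (Subtype.ext (Prod.ext ?_ rfl)))
            change f (-(algebraMap K R (e 3) * x.1.1.2.1 ^ 3 +
              algebraMap K R (e 5) * (x.1.1.1 * x.1.1.2.1)) * Ring.inverse (l.val x.1)) =
              -(algebraMap K S (e 3) * (f x.1.1.2.1) ^ 3 +
              algebraMap K S (e 5) * (f x.1.1.1 * f x.1.1.2.1)) *
              Ring.inverse (l.val ((EX F).map f x.1))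
            simp only [map_neg, map_add, map_mul, map_pow, AlgHom.commutes, h3] }
  · exact
      { hom := fun {R} _ _ x => ⟨(x.1.1.2.1, x.1.1.2.2), by
            have h5 : x.1.1.2.2 ^ 2 - ev F 0 x.1.1.1 x.1.1.2.1 = 0 := x.1.2
            have h6 := hy R x.1.1.1 x.1.1.2.1 x.2
            rw [h6, ev3, ← ev4] at h5
            exact h5⟩
        inv := fun {R} _ _ y => ⟨⟨(algebraMap K R b * y.1.1 ^ 2, y.1.1, y.1.2), by
            have h5 : y.1.2 ^ 2 - aeval y.1.1 (C δ * X ^ 6 : K[X]) = 0 := y.2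
            rw [ev4, ← ev3] at h5
            exact h5⟩, by
            change algebraMap K R (e 2) * y.1.1 ^ 2 +
              algebraMap K R (e 4) * (algebraMap K R b * y.1.1 ^ 2) = 0
            have h6 := hb' R
            linear_combination y.1.1 ^ 2 * h6⟩
        inv_hom := fun {R} _ _ x => by
            have h6 := hy R x.1.1.1 x.1.1.2.1 x.2
            exact Subtype.ext (Subtype.ext (Prod.ext h6.symm rfl))
        hom_inv := fun _ => rfl
        nat := fun _ _ => rfl }

/-- **(2)** transfer, the sextic form does not depend on `x` -/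
theorem cone6_trx [IsAlgClosed K] (hG : GOps K G)
    (F E : MvPolynomial (Fin 3) K) (hF : IsWeightedHomogeneous wt F 6)
    (hE : IsWeightedHomogeneous wt E 3) (hFx : NoX F) (hEx : ¬ NoX E)
    (hD : ((CW F).cls (CW.c F E)).Mem G) : (CW F).Mem G := by
  obtain ⟨e, he⟩ := exists_f3 hE
  refine Mem.of_iso (lineX F hFx) (Mem.line hG.toKOps ?_)
  by_cases h0 : e 0 = 0
  · by_cases h1 : e 1 = 0
    · by_cases h4 : e 4 = 0
      · by_cases h2 : e 2 = 0
        · exfalso
          apply hEx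
          apply noX_of_ev
          intro R _ _ x y z
          rw [he, he]
          simp only [f3, h0, h1, h2, h4, map_zero]
          ring
        · exact base_linz hG F E e hF hFx he h0 h1 h4 h2 hD
      · exact base_liny hG F E e hF hFx he h0 h1 h4 hD
    · exact base_quad hG F E e hF hFx he h0 h1 hD
  · exact base_cubic hG F E e hFx he h0 hD

/-! ### The base of a cone without `y` -/

/-- the base of a cone without `y` -/
noncomputable def EY (F : MvPolynomial (Fin 3) K) : KFn K :=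
  (A3 K).cls ⟨fun x => x.2.2 ^ 2 - ev F x.1 0 x.2.1, fun f x => by
    rw [map_sub, map_pow, ev_map, map_zero]
    rfl⟩

instance (F : MvPolynomial (Fin 3) K) : Rp (EY F) := by
  unfold EY
  infer_instance

/-- the cone is the product of the base and a line -/
noncomputable def lineY (F : MvPolynomial (Fin 3) K) (h : NoY F) : Iso (CW F) (EY F).line where
  hom {R} _ _ x := (⟨(x.1.1, x.1.2.2.1, x.1.2.2.2), by
    have h1 : x.1.2.2.2 ^ 2 - ev F x.1.1 x.1.2.1 x.1.2.2.1 = 0 := x.2
    rw [h.ev] at h1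
    exact h1⟩, x.1.2.1)
  inv {R} _ _ y := ⟨(y.1.1.1, y.2, y.1.1.2.1, y.1.1.2.2), by
    change y.1.1.2.2 ^ 2 - ev F y.1.1.1 y.2 y.1.1.2.1 = 0
    rw [h.ev]
    exact y.1.2⟩
  inv_hom _ := rfl
  hom_inv _ := rfl
  nat _ _ := rfl

/-- **(2)** transfer, the sextic form does not depend on `y` -/
theorem cone6_try [IsAlgClosed K] (hG : GOps K G)
    (F E : MvPolynomial (Fin 3) K) (hF : IsWeightedHomogeneous wt F 6)
    (hE : IsWeightedHomogeneous wt E 3) (hFy : NoY F) (hEy : ¬ NoY E)
    (hD : ((CW F).cls (CW.c F E)).Mem G) : (CW F).Mem G := by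
  obtain ⟨e, he⟩ := exists_f3 hE
  refine Mem.of_iso (lineY F hFy) (Mem.line hG.toKOps ?_)
  -- the coefficient of `y`
  obtain ⟨m, hm⟩ : ∃ m : K × K, e 4 * m.1 + e 5 * m.2 = 1 := by
    by_cases h4 : e 4 = 0
    · by_cases h5 : e 5 = 0
      · exfalso
        apply hEy
        apply noY_of_ev
        intro R _ _ x y z
        rw [he, he]
        simp only [f3, h4, h5, map_zero]
        ring
      · exact ⟨(0, (e 5)⁻¹), by rw [mul_zero, zero_add, mul_inv_cancel₀ h5]⟩
    · exact ⟨((e 4)⁻¹, 0), by rw [mul_zero, add_zero, mul_inv_cancel₀ h4]⟩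
  have hm' : ∀ (R : Type) [CommRing R] [Algebra K R], algebraMap K R (e 4) * algebraMap K R m.1 +
      algebraMap K R (e 5) * algebraMap K R m.2 = 1 := fun R _ _ => by
    rw [← map_mul, ← map_mul, ← map_add, hm, map_one]
  have ev2 : ∀ (R : Type) [CommRing R] [Algebra K R] (x y z : R), ev E x y z =
      (algebraMap K R (e 4) * x + algebraMap K R (e 5) * z) * y + ev E x 0 z := by
    intro R _ _ x y z
    rw [he, he]
    simp only [f3]
    ring
  have hsc : ∀ (P : MvPolynomial (Fin 3) K) (d : ℕ), IsWeightedHomogeneous wt P d →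
      ∀ (R : Type) [CommRing R] [Algebra K R] (t : R),
      ev P (algebraMap K R (e 5) * t) 0 (-(algebraMap K R (e 4) * t)) =
      aeval t (C (ev P (e 5) (0 : K) (-(e 4))) * X ^ d : K[X]) := by
    intro P d hP R _ _ t
    have h5 := ev_scale hP t (algebraMap K R (e 5)) 0 (-(algebraMap K R (e 4)))
    rw [mul_zero, mul_neg, mul_comm t, mul_comm t] at h5
    rw [h5, map_mul, map_pow, aeval_C, aeval_X, mul_comm]
    have h6 := ev_map P (Algebra.ofId K R) (e 5) 0 (-(e 4))
    rw [map_zero, map_neg] at h6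
    rw [← Algebra.ofId_apply, ← Algebra.ofId_apply, ← Algebra.ofId_apply, ← h6]
  have hB := mem_six hG (ev F (e 5) (0 : K) (-(e 4)))
  let l : Coord (EY F) := ⟨fun {R} _ _ x => algebraMap K R (e 4) * x.1.1 +
    algebraMap K R (e 5) * x.1.2.1, fun f x => by
      simp only [map_add, map_mul, AlgHom.commutes]
      rfl⟩
  let l' : Coord (DX F E) := ⟨fun {R} _ _ x => algebraMap K R (e 4) * x.1.1.1 +
    algebraMap K R (e 5) * x.1.1.2.2.1, fun f x => by
      simp only [map_add, map_mul, AlgHom.commutes]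
      rfl⟩
  -- the parameter on the line
  have par1 : ∀ (R : Type) [CommRing R] [Algebra K R] (x z : R),
      algebraMap K R (e 4) * x + algebraMap K R (e 5) * z = 0 →
      algebraMap K R (e 5) * (algebraMap K R m.2 * x - algebraMap K R m.1 * z) = x := by
    intro R _ _ x z h
    have h5 := hm' R
    linear_combination x * h5 - algebraMap K R m.1 * h
  have par2 : ∀ (R : Type) [CommRing R] [Algebra K R] (x z : R),
      algebraMap K R (e 4) * x + algebraMap K R (e 5) * z = 0 →
      -(algebraMap K R (e 4) * (algebraMap K R m.2 * x - algebraMap K R m.1 * z)) = z := by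
    intro R _ _ x z h
    have h5 := hm' R
    linear_combination z * h5 - algebraMap K R m.2 * h
  have par3 : ∀ (R : Type) [CommRing R] [Algebra K R] (t : R),
      algebraMap K R m.2 * (algebraMap K R (e 5) * t) -
        algebraMap K R m.1 * (-(algebraMap K R (e 4) * t)) = t := by
    intro R _ _ t
    have h5 := hm' R
    linear_combination t * h5
  have hcl : ((DX F E).cls l').Mem G := by
    refine Mem.of_iso ?_ (Mem.line hG.toKOps
      (Pool.Agent.Helper71.QP.BC.cls_any hG (C (ev F (e 5) (0 : K) (-(e 4))) * X ^ 6)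
        (C (ev E (e 5) (0 : K) (-(e 4))) * X ^ 3) hB))
    exact
      { hom := fun {R} _ _ x => (⟨⟨(algebraMap K R m.2 * x.1.1.1.1 -
            algebraMap K R m.1 * x.1.1.1.2.2.1, x.1.1.1.2.2.2), by
            have h5 : x.1.1.1.2.2.2 ^ 2 - ev F x.1.1.1.1 x.1.1.1.2.1 x.1.1.1.2.2.1 = 0 := x.1.1.2
            have p1 := par1 R x.1.1.1.1 x.1.1.1.2.2.1 x.2
            have p2 := par2 R x.1.1.1.1 x.1.1.1.2.2.1 x.2
            rw [hFy.ev] at h5
            change x.1.1.1.2.2.2 ^ 2 - aeval (algebraMap K R m.2 * x.1.1.1.1 -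
              algebraMap K R m.1 * x.1.1.1.2.2.1) (C _ * X ^ 6 : K[X]) = 0
            rw [← hsc F 6 hF, p1, p2]
            exact h5⟩, by
            have h5 : ev E x.1.1.1.1 x.1.1.1.2.1 x.1.1.1.2.2.1 = 0 := x.1.2
            have h7 : algebraMap K R (e 4) * x.1.1.1.1 +
              algebraMap K R (e 5) * x.1.1.1.2.2.1 = 0 := x.2
            have p1 := par1 R x.1.1.1.1 x.1.1.1.2.2.1 x.2
            have p2 := par2 R x.1.1.1.1 x.1.1.1.2.2.1 x.2
            rw [ev2, h7, zero_mul, zero_add] at h5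
            change aeval (algebraMap K R m.2 * x.1.1.1.1 -
              algebraMap K R m.1 * x.1.1.1.2.2.1) (C _ * X ^ 3 : K[X]) = 0
            rw [← hsc E 3 hE, p1, p2]
            exact h5⟩, x.1.1.1.2.1)
        inv := fun {R} _ _ y => ⟨⟨⟨(algebraMap K R (e 5) * y.1.1.1.1, y.2,
            -(algebraMap K R (e 4) * y.1.1.1.1), y.1.1.1.2), by
            have h5 : y.1.1.1.2 ^ 2 - aeval y.1.1.1.1 (C _ * X ^ 6 : K[X]) = 0 := y.1.1.2
            rw [← hsc F 6 hF] at h5
            have h6 := hFy.ev (algebraMap K R (e 5) * y.1.1.1.1) y.2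
              (-(algebraMap K R (e 4) * y.1.1.1.1))
            exact (congrArg (fun w => y.1.1.1.2 ^ 2 - w) h6).trans h5⟩, by
            have h5 : aeval y.1.1.1.1 (C _ * X ^ 3 : K[X]) = 0 := y.1.2
            rw [← hsc E 3 hE] at h5
            change ev E (algebraMap K R (e 5) * y.1.1.1.1) y.2
              (-(algebraMap K R (e 4) * y.1.1.1.1)) = 0
            rw [ev2, h5]
            ring⟩, by
            change algebraMap K R (e 4) * (algebraMap K R (e 5) * y.1.1.1.1) +
              algebraMap K R (e 5) * (-(algebraMap K R (e 4) * y.1.1.1.1)) = 0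
            ring⟩
        inv_hom := fun {R} _ _ x => by
            have p1 := par1 R x.1.1.1.1 x.1.1.1.2.2.1 x.2
            have p2 := par2 R x.1.1.1.1 x.1.1.1.2.2.1 x.2
            exact Subtype.ext (Subtype.ext (Subtype.ext (Prod.ext p1 (Prod.ext rfl
              (Prod.ext p2 rfl)))))
        hom_inv := fun {R} _ _ y => by
            refine Prod.ext (Subtype.ext (Subtype.ext (Prod.ext ?_ rfl))) rfl
            exact par3 R _
        nat := fun {R S} _ _ _ _ f x => by
            refine Prod.ext (Subtype.ext (Subtype.ext (Prod.ext ?_ rfl))) rfl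
            change f (algebraMap K R m.2 * x.1.1.1.1 - algebraMap K R m.1 * x.1.1.1.2.2.1) =
              algebraMap K S m.2 * f x.1.1.1.1 - algebraMap K S m.1 * f x.1.1.1.2.2.1
            simp only [map_sub, map_mul, AlgHom.commutes] }
  have hDo : ((DX F E).opn l').Mem G := mem_opn hG.toKOps _ hD hcl
  refine Mem.glue hG.toKOps l (Mem.of_iso ?_ hDo) (Mem.of_iso ?_ hB)
  · exact
      { hom := fun {R} _ _ x => ⟨⟨⟨(x.1.1.1, -(ev E x.1.1.1 0 x.1.1.2.1) *
            Ring.inverse (l.val x.1), x.1.1.2.1, x.1.1.2.2), by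
            change x.1.1.2.2 ^ 2 - ev F x.1.1.1 _ x.1.1.2.1 = 0
            rw [hFy.ev]
            exact x.1.2⟩, by
            have h3 := mul_inv' (a := l.val x.1) x.2
            change ev E x.1.1.1 (-(ev E x.1.1.1 0 x.1.1.2.1) *
              Ring.inverse (l.val x.1)) x.1.1.2.1 = 0
            rw [ev2]
            change l.val x.1 * (-(ev E x.1.1.1 0 x.1.1.2.1) * Ring.inverse (l.val x.1)) +
              ev E x.1.1.1 0 x.1.1.2.1 = 0
            linear_combination (-(ev E x.1.1.1 0 x.1.1.2.1)) * h3⟩, x.2⟩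
        inv := fun {R} _ _ y => ⟨⟨(y.1.1.1.1, y.1.1.1.2.2.1, y.1.1.1.2.2.2), by
            have h3 : y.1.1.1.2.2.2 ^ 2 - ev F y.1.1.1.1 y.1.1.1.2.1 y.1.1.1.2.2.1 = 0 := y.1.1.2
            rw [hFy.ev] at h3
            exact h3⟩, y.2⟩
        inv_hom := fun _ => rfl
        hom_inv := fun {R} _ _ y => by
            have h3 := mul_inv' (a := l'.val y.1) y.2
            have h6 : ev E y.1.1.1.1 y.1.1.1.2.1 y.1.1.1.2.2.1 = 0 := y.1.2
            rw [ev2] at h6
            refine Subtype.ext (Subtype.ext (Subtype.ext (Prod.ext rfl (Prod.ext ?_ rfl))))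
            change -(ev E y.1.1.1.1 0 y.1.1.1.2.2.1) * Ring.inverse (l'.val y.1) = y.1.1.1.2.1
            have h7 : l'.val y.1 * y.1.1.1.2.1 + ev E y.1.1.1.1 0 y.1.1.1.2.2.1 = 0 := h6
            linear_combination (-Ring.inverse (l'.val y.1)) * h7 + y.1.1.1.2.1 * h3
        nat := fun {R S} _ _ _ _ f x => by
            have h3 := inv_nat f (a := l.val x.1) x.2
            rw [l.nat] at h3
            refine Subtype.ext (Subtype.ext (Subtype.ext (Prod.ext rfl (Prod.ext ?_ rfl))))
            change f (-(ev E x.1.1.1 0 x.1.1.2.1) * Ring.inverse (l.val x.1)) =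
              -(ev E (f x.1.1.1) 0 (f x.1.1.2.1)) * Ring.inverse (l.val ((EY F).map f x.1))
            rw [map_mul, map_neg, ev_map, map_zero, h3] }
  · exact
      { hom := fun {R} _ _ x => ⟨(algebraMap K R m.2 * x.1.1.1 -
            algebraMap K R m.1 * x.1.1.2.1, x.1.1.2.2), by
            have h5 : x.1.1.2.2 ^ 2 - ev F x.1.1.1 0 x.1.1.2.1 = 0 := x.1.2
            have p1 := par1 R x.1.1.1 x.1.1.2.1 x.2
            have p2 := par2 R x.1.1.1 x.1.1.2.1 x.2
            change x.1.1.2.2 ^ 2 - aeval (algebraMap K R m.2 * x.1.1.1 -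
              algebraMap K R m.1 * x.1.1.2.1) (C _ * X ^ 6 : K[X]) = 0
            rw [← hsc F 6 hF, p1, p2]
            exact h5⟩
        inv := fun {R} _ _ y => ⟨⟨(algebraMap K R (e 5) * y.1.1,
            -(algebraMap K R (e 4) * y.1.1), y.1.2), by
            have h5 : y.1.2 ^ 2 - aeval y.1.1 (C _ * X ^ 6 : K[X]) = 0 := y.2
            rw [← hsc F 6 hF] at h5
            exact h5⟩, by
            change algebraMap K R (e 4) * (algebraMap K R (e 5) * y.1.1) +
              algebraMap K R (e 5) * (-(algebraMap K R (e 4) * y.1.1)) = 0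
            ring⟩
        inv_hom := fun {R} _ _ x => by
            have p1 := par1 R x.1.1.1 x.1.1.2.1 x.2
            have p2 := par2 R x.1.1.1 x.1.1.2.1 x.2
            exact Subtype.ext (Subtype.ext (Prod.ext p1 (Prod.ext p2 rfl)))
        hom_inv := fun {R} _ _ y => Subtype.ext (Prod.ext (par3 R _) rfl)
        nat := fun {R S} _ _ _ _ f x => by
            refine Subtype.ext (Prod.ext ?_ rfl)
            change f (algebraMap K R m.2 * x.1.1.1 - algebraMap K R m.1 * x.1.1.2.1) =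
              algebraMap K S m.2 * f x.1.1.1 - algebraMap K S m.1 * f x.1.1.2.1
            simp only [map_sub, map_mul, AlgHom.commutes] }

end Pool.Agent.Helper79.CP
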